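import Mathlib
import Pool.Agent.H84.DivDefs
import Pool.Agent.H84.DivEx

set_option autoImplicit false

namespace Pool.Agent.Results.MP_00e3a8_gt.Linear

open Pool.Agent.H84.DivDefs

theorem result : ∀ (X : Type) [Fintype X], 4 ≤ Fintype.card X →
    ∀ (k : (X → X → ℝ) → ℕ) (φ : ∀ d : X → X → ℝ, X → Fin (k d) → ℝ),
      ∃ δ : Finset X → ℝ, IsDiv δ ∧
        ∀ c : ℝ, HasDist δ (φ (ind δ)) c → ((Fintype.card X : ℝ) - 1) / 4 ≤ c :=
  fun _ _ hX k φ => Pool.Agent.H84.DivEx.main hX k φ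

end Pool.Agent.Results.MP_00e3a8_gt.Linear
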